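import Pool.Agent.Y520.AS.Stm
import Pool.Agent.Y534.AR.Divg
import Pool.Agent.Y182.AS.DRE
import Pool.Agent.Y748.AS.Test
import Pool.Agent.Y314.AS.Ned
import Pool.Agent.Y348.AS.Lev
import Pool.Agent.Y970.AS.SUP
import Pool.Agent.Y401.AS.Grad
import Pool.Agent.Y429.AS.Hess
import Pool.Agent.Y465.AS.Conv

/-!
# Singular (MEMS type) problems with advection in planar domains

`-Δ u + c·∇u = λ f(u)` in `Ω`, `u = 0` on `∂Ω`, with `f` smooth, increasing and convex on `[0,1)`,
`f(0) = 1`, `f(t) → ∞` as `t → 1`, and an arbitrary advection `c`.  In dimension two the extremal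
solution is a classical solution, for every such `f`, every bounded open set `Ω` and every `c`.
The case `c = 0` is Q1.
-/

set_option autoImplicit false

open MeasureTheory Set Filter Topology Laplacian InnerProductSpace

namespace Pool.Agent.Results.MP_32f00d_an.PlanarWithAdvection

open Pool.Agent.H947R3 Pool.Agent.Y520.AR Pool.Agent.Y520.AS

/-- Nonlinearities of type (S): smooth, increasing and convex on `[0,1)`, `f(0) = 1` and
`f(t) → +∞` as `t ↗ 1`. -/
structure IsTypeS (f : ℝ → ℝ) : Prop where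
  smooth : ContDiffOn ℝ (⊤ : ℕ∞) f (Set.Ico 0 1)
  increasing : MonotoneOn f (Set.Ico 0 1)
  convex : ConvexOn ℝ (Set.Ico 0 1) f
  at_zero : f 0 = 1
  blow_up : Tendsto f (𝓝[<] 1) atTop

/-- The advection: a `C¹` vector field in `Ω`, bounded and with bounded derivative.  Every smooth
vector field on the closure of a bounded `Ω` is of this kind, and so is `0`. -/
def IsAdvection (Ω : Set (EuclideanSpace ℝ (Fin 2)))
    (c : EuclideanSpace ℝ (Fin 2) → EuclideanSpace ℝ (Fin 2)) : Prop :=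
  ContDiffOn ℝ 1 c Ω ∧ ∃ B : ℝ, ∀ x ∈ Ω, ‖c x‖ ≤ B ∧ ‖fderiv ℝ c x‖ ≤ B

/-- `u` is a classical solution of `-Δ u + c·∇u = l f(u)` in `Ω`, `u = 0` on `∂Ω`, where
`u ∈ C²(Ω) ∩ C(closure Ω)` takes values in the domain `[0,1)` of `f`. -/
structure IsClassicalSolution (Ω : Set (EuclideanSpace ℝ (Fin 2)))
    (c : EuclideanSpace ℝ (Fin 2) → EuclideanSpace ℝ (Fin 2)) (f : ℝ → ℝ) (l : ℝ)
    (u : EuclideanSpace ℝ (Fin 2) → ℝ) : Prop where
  contDiffOn : ContDiffOn ℝ 2 u Ω
  continuousOn : ContinuousOn u (closure Ω)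
  nonneg : ∀ x ∈ Ω, 0 ≤ u x
  lt_one : ∀ x ∈ Ω, u x < 1
  equation : ∀ x ∈ Ω, -(Laplacian.laplacian u x) + fderiv ℝ u x (c x) = l * f (u x)
  boundary : ∀ x ∈ frontier Ω, u x = 0

/-- `u` is the minimal solution. -/
def IsMinimalSolution (Ω : Set (EuclideanSpace ℝ (Fin 2)))
    (c : EuclideanSpace ℝ (Fin 2) → EuclideanSpace ℝ (Fin 2)) (f : ℝ → ℝ) (l : ℝ)
    (u : EuclideanSpace ℝ (Fin 2) → ℝ) : Prop :=
  IsClassicalSolution Ω c f l u ∧
    ∀ v, IsClassicalSolution Ω c f l v → ∀ x ∈ closure Ω, u x ≤ v x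

/-- `ls` is the extremal parameter, `u l` (for `0 < l < ls`) the branch of minimal solutions and
`us` the extremal solution `lim_{l ↗ ls} u l`. -/
structure IsExtremal (Ω : Set (EuclideanSpace ℝ (Fin 2)))
    (c : EuclideanSpace ℝ (Fin 2) → EuclideanSpace ℝ (Fin 2)) (f : ℝ → ℝ) (ls : ℝ)
    (u : ℝ → EuclideanSpace ℝ (Fin 2) → ℝ) (us : EuclideanSpace ℝ (Fin 2) → ℝ) : Prop where
  pos : 0 < ls
  minimal : ∀ l, 0 < l → l < ls → IsMinimalSolution Ω c f l (u l)
  increasing : ∀ l l', 0 < l → l < l' → l' < ls → ∀ x ∈ closure Ω, u l x ≤ u l' x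
  no_solution : ∀ l, ls < l → ¬ ∃ v, IsClassicalSolution Ω c f l v
  limit : ∀ x ∈ closure Ω, Tendsto (fun l => u l x) (𝓝[<] ls) (𝓝 (us x))

lemma IsTypeS.nl {f : ℝ → ℝ} (h : IsTypeS f) : NL f (deriv f) := by
  have hsub : Ioo (0 : ℝ) 1 ⊆ Ico 0 1 := Ioo_subset_Ico_self
  have hc : ContDiffOn ℝ (⊤ : ℕ∞) f (Ioo 0 1) := h.smooth.mono hsub
  have hdiff : ∀ t ∈ Ioo (0 : ℝ) 1, DifferentiableAt ℝ f t := fun t ht =>
    (hc.contDiffAt (isOpen_Ioo.mem_nhds ht)).differentiableAt (by simp)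
  have hmono : MonotoneOn f (Ioo 0 1) := h.increasing.mono hsub
  have hconv : ConvexOn ℝ (Ioo 0 1) f := h.convex.subset hsub (convex_Ioo 0 1)
  have hdm : MonotoneOn (deriv f) (Ioo 0 1) := hconv.monotoneOn_deriv hdiff
  refine ⟨fun t ht => (hdiff t ht).hasDerivAt, ?_, hdm, ?_, ?_, ?_, ?_⟩
  · exact hc.continuousOn_deriv_of_isOpen isOpen_Ioo (by simp)
  · intro t ht
    have h1 := (hdiff t ht).hasDerivAt.tendsto_slope_zero_right
    apply ge_of_tendsto h1
    filter_upwards [Ioo_mem_nhdsGT (show (0 : ℝ) < 1 - t by linarith [ht.2])] with s hs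
    have h2 := hmono ht (show t + s ∈ Ioo (0 : ℝ) 1 from ⟨by linarith [ht.1, hs.1], by linarith [hs.2]⟩)
      (by linarith [hs.1])
    rw [smul_eq_mul]
    exact mul_nonneg (inv_nonneg.2 hs.1.le) (by linarith)
  · intro s hs t ht
    rcases lt_trichotomy s t with hst | hst | hst
    · have h1 := hconv.deriv_le_slope hs ht hst (hdiff s hs)
      rw [slope_def_field, le_div_iff₀ (by linarith)] at h1
      linarith
    · subst hst; simp
    · have h1 := hconv.slope_le_deriv ht hs hst (hdiff s hs)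
      rw [slope_def_field, div_le_iff₀ (by linarith)] at h1
      linarith
  · intro t ht
    have := h.increasing (left_mem_Ico.2 zero_lt_one) (hsub ht) ht.1.le
    rwa [h.at_zero] at this
  · intro M
    have h1 := h.blow_up.eventually_ge_atTop M
    have h2 : ∀ᶠ t in 𝓝[<] (1 : ℝ), t ∈ Ioo (0 : ℝ) 1 := Ioo_mem_nhdsLT zero_lt_one
    obtain ⟨t, ht1, ht2⟩ := (h1.and h2).exists
    exact ⟨t, ht2, ht1⟩

lemma fderiv_zero_of_min {Ω : Set (E 2)} (hΩ : IsOpen Ω) {z : E 2 → ℝ} {x : E 2} (hx : x ∈ Ω)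
    (hmin : ∀ y ∈ Ω, z x ≤ z y) : IsLocalMin z x ∧ fderiv ℝ z x = 0 := by
  have hloc : IsLocalMin z x := by
    filter_upwards [hΩ.mem_nhds hx] with y hy using hmin y hy
  exact ⟨hloc, hloc.fderiv_eq_zero⟩

/-- A maximum principle with advection. -/
lemma nonneg_of_super {Ω : Set (E 2)} (hΩ : IsOpen Ω) (hb : Bornology.IsBounded Ω)
    {c : E 2 → E 2} {w : E 2 → ℝ} (hw : ContDiffOn ℝ 2 w Ω) (hwc : ContinuousOn w (closure Ω))
    (hpos : ∀ x ∈ Ω, 0 < - Δ w x + fderiv ℝ w x (c x)) (hbd : ∀ x ∈ frontier Ω, 0 ≤ w x) :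
    ∀ x ∈ closure Ω, 0 ≤ w x := by
  intro x hx
  obtain ⟨y, hy, hmin⟩ := hb.isCompact_closure.exists_isMinOn ⟨x, hx⟩ hwc
  have hyx : w y ≤ w x := hmin hx
  by_cases hyΩ : y ∈ Ω
  · exfalso
    obtain ⟨hloc, hd⟩ := fderiv_zero_of_min hΩ hyΩ (fun z hz => hmin (subset_closure hz))
    have h1 := lap_nonneg_of_isLocalMin (hw.contDiffAt (hΩ.mem_nhds hyΩ)) hloc
    have h2 := hpos y hyΩ
    rw [hd] at h2
    simp only [FunLike.coe_zero, Pi.zero_apply, add_zero] at h2
    linarith
  · have : y ∈ frontier Ω := by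
      rw [frontier, hΩ.interior_eq]; exact ⟨hy, hyΩ⟩
    exact (hbd y this).trans hyx

lemma IsClassicalSolution.adm {Ω : Set (EuclideanSpace ℝ (Fin 2))} (hΩ : IsOpen Ω)
    (hb : Bornology.IsBounded Ω) {c : EuclideanSpace ℝ (Fin 2) → EuclideanSpace ℝ (Fin 2)}
    {f : ℝ → ℝ} (hf : IsTypeS f) {l : ℝ} (hl : 0 < l)
    {u : EuclideanSpace ℝ (Fin 2) → ℝ} (h : IsClassicalSolution Ω c f l u) : Adm Ω u := by
  refine ⟨hΩ, hb, h.contDiffOn, h.continuousOn, ?_, h.lt_one, h.boundary⟩
  intro x hx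
  rcases (h.nonneg x hx).lt_or_eq with h1 | h1
  · exact h1
  · exfalso
    obtain ⟨hloc, hd⟩ := fderiv_zero_of_min hΩ hx (z := u) (fun y hy => by
      rw [← h1]; exact h.nonneg y hy)
    have h2 := lap_nonneg_of_isLocalMin (h.contDiffOn.contDiffAt (hΩ.mem_nhds hx)) hloc
    have h3 := h.equation x hx
    rw [← h1, hf.at_zero, hd] at h3
    simp only [FunLike.coe_zero, Pi.zero_apply, add_zero] at h3
    linarith

/-- **Main theorem.** -/
theorem main_of (hSTAB : S_STAB) (hSUP : S_SUP) (hCONV : S_CONV)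
    (Ω : Set (EuclideanSpace ℝ (Fin 2))) (hΩ : IsOpen Ω) (hb : Bornology.IsBounded Ω)
    (c : EuclideanSpace ℝ (Fin 2) → EuclideanSpace ℝ (Fin 2)) (hc : IsAdvection Ω c)
    (f : ℝ → ℝ) (hf : IsTypeS f) (ls : ℝ) (u : ℝ → EuclideanSpace ℝ (Fin 2) → ℝ)
    (us : EuclideanSpace ℝ (Fin 2) → ℝ) (h : IsExtremal Ω c f ls u us) :
    IsClassicalSolution Ω c f ls us ∧ ∃ m < 1, ∀ x ∈ closure Ω, us x ≤ m := by
  obtain ⟨B', hB'⟩ := hc.2
  set B : ℝ := max B' 0 with hBdef
  have hD : Drift Ω c B :=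
    ⟨le_max_right _ _, hc.1, fun x hx => (hB' x hx).1.trans (le_max_left _ _),
      fun x hx => (hB' x hx).2.trans (le_max_left _ _)⟩
  have hls := h.pos
  have hNL := hf.nl
  have hsol : ∀ l, 0 < l → l < ls → IsClassicalSolution Ω c f l (u l) := fun l h0 h1 =>
    (h.minimal l h0 h1).1
  have hadm : ∀ l, 0 < l → l < ls → Adm Ω (u l) := fun l h0 h1 =>
    (hsol l h0 h1).adm hΩ hb hf h0
  have huI : ∀ l, 0 < l → l < ls → ∀ x ∈ Ω, u l x ∈ Ioo (0 : ℝ) 1 := fun l h0 h1 x hx =>
    ⟨(hadm l h0 h1).pos x hx, (hadm l h0 h1).lt x hx⟩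
  -- stability of the minimal branch
  have hst : ∀ l, 0 < l → l < ls → StabD Ω B (fun x => l * deriv f (u l x)) := by
    intro l h0 h1 φ hφ hφc hφs
    set l' : ℝ := (l + ls) / 2 with hl'
    have hll' : l < l' := by rw [hl']; linarith
    have hl's : l' < ls := by rw [hl']; linarith
    have h0' : 0 < l' := by linarith
    set z : EuclideanSpace ℝ (Fin 2) → ℝ := fun x => u l' x - u l x with hz
    have hzc : ContDiffOn ℝ 2 z Ω := (hadm l' h0' hl's).c2.sub (hadm l h0 h1).c2
    have hzlap : ∀ x ∈ Ω, l * deriv f (u l x) * z x + (l' - l) ≤ -(Δ z x) + fderiv ℝ z x (c x) := by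
      intro x hx
      have e1 : Δ z x = Δ (u l') x - Δ (u l) x :=
        ((hadm l' h0' hl's).c2.contDiffAt (hΩ.mem_nhds hx)).laplacian_sub
          ((hadm l h0 h1).c2.contDiffAt (hΩ.mem_nhds hx))
      have e2 := (hsol l' h0' hl's).equation x hx
      have e3 := (hsol l h0 h1).equation x hx
      have e4 := hNL.conv _ (huI l h0 h1 x hx) _ (huI l' h0' hl's x hx)
      have e5 := hNL.one _ (huI l' h0' hl's x hx)
      have e0 : fderiv ℝ z x = fderiv ℝ (u l') x - fderiv ℝ (u l) x :=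
        fderiv_fun_sub
          (((hadm l' h0' hl's).c2.contDiffAt (hΩ.mem_nhds hx)).differentiableAt (by norm_num))
          (((hadm l h0 h1).c2.contDiffAt (hΩ.mem_nhds hx)).differentiableAt (by norm_num))
      have e6 : -(Δ z x) + fderiv ℝ z x (c x) =
          l * (f (u l' x) - f (u l x)) + (l' - l) * f (u l' x) := by
        rw [e1, e0, sub_apply]; linarith
      rw [e6]
      have e7 : l * deriv f (u l x) * z x ≤ l * (f (u l' x) - f (u l x)) := by
        rw [mul_assoc]
        apply mul_le_mul_of_nonneg_left _ h0.le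
        simp only [hz]; linarith
      nlinarith
    have hzpos : ∀ x ∈ Ω, 0 < z x := by
      intro x hx
      have hnn : ∀ y ∈ Ω, 0 ≤ z y := fun y hy =>
        sub_nonneg.2 (h.increasing l l' h0 hll' hl's y (subset_closure hy))
      rcases (hnn x hx).lt_or_eq with h2 | h2
      · exact h2
      · exfalso
        obtain ⟨hloc, hd⟩ := fderiv_zero_of_min hΩ hx (z := z) (fun y hy => by
          rw [← h2]; exact hnn y hy)
        have h3 := lap_nonneg_of_isLocalMin (hzc.contDiffAt (hΩ.mem_nhds hx)) hloc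
        have h4 := hzlap x hx
        rw [← h2, hd] at h4
        simp only [FunLike.coe_zero, Pi.zero_apply, add_zero, mul_zero, zero_add] at h4
        linarith
    exact hSTAB 2 Ω c B z (fun x => l * deriv f (u l x)) φ hΩ hD hzc hzpos
      (continuousOn_const.mul ((hadm l h0 h1).comp_cont hNL.dcont))
      (fun x hx => by
        show l * deriv f (u l x) * z x ≤ _
        linarith [hzlap x hx]) hφ hφc hφs
  -- the uniform bound
  obtain ⟨m0, hm0, hbound⟩ := hSUP f (deriv f) Ω c B ls hNL hD hls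
  have hub : ∀ l, ls / 2 ≤ l → l < ls → ∀ x ∈ Ω, u l x ≤ m0 := fun l h0 h1 =>
    hbound l h0 h1.le (u l) (hadm l (by linarith) h1) (hsol l (by linarith) h1).equation
      (hst l (by linarith) h1)
  -- the sequence of parameters
  set L : ℕ → ℝ := fun k => ls - ls / (k + 2) with hL
  have hL0 : ∀ k, ls / 2 ≤ L k := by
    intro k
    have : ls / ((k : ℝ) + 2) ≤ ls / 2 := by
      apply div_le_div_of_nonneg_left hls.le (by norm_num)
      have : (0 : ℝ) ≤ k := Nat.cast_nonneg k
      linarith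
    simp only [hL]; linarith
  have hLpos : ∀ k, 0 < L k := fun k => by linarith [hL0 k]
  have hLlt : ∀ k, L k < ls := by
    intro k
    have : 0 < ls / ((k : ℝ) + 2) := by positivity
    simp only [hL]; linarith
  have hLmono : StrictMono L := by
    intro a b hab
    have h1 : ls / ((b : ℝ) + 2) < ls / ((a : ℝ) + 2) := by
      apply div_lt_div_of_pos_left hls (by positivity)
      have : (a : ℝ) < b := by exact_mod_cast hab
      linarith
    simp only [hL]; linarith
  have hLlim : Tendsto L atTop (𝓝 ls) := by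
    have h1 : Tendsto (fun k : ℕ => ls / ((k : ℝ) + 2)) atTop (𝓝 0) := by
      apply Tendsto.div_atTop tendsto_const_nhds
      exact tendsto_atTop_add_const_right _ _ tendsto_natCast_atTop_atTop
    simpa using tendsto_const_nhds.sub h1
  have hLlim' : Tendsto L atTop (𝓝[<] ls) :=
    tendsto_nhdsWithin_iff.2 ⟨hLlim, Eventually.of_forall fun k => hLlt k⟩
  have hseq : ∀ x ∈ closure Ω, Tendsto (fun k => u (L k) x) atTop (𝓝 (us x)) := fun x hx =>
    (h.limit x hx).comp hLlim'
  have hmono : ∀ x ∈ Ω, Monotone (fun k => u (L k) x) := by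
    intro x hx a b hab
    rcases hab.lt_or_eq with h1 | h1
    · exact h.increasing _ _ (hLpos a) (hLmono h1) (hLlt b) x (subset_closure hx)
    · subst h1; exact le_rfl
  -- bounds on the extremal solution
  have husle : ∀ x ∈ Ω, us x ≤ m0 := fun x hx =>
    le_of_tendsto (hseq x (subset_closure hx))
      (Eventually.of_forall fun k => hub (L k) (hL0 k) (hLlt k) x hx)
  have husge : ∀ x ∈ Ω, u (L 0) x ≤ us x := fun x hx =>
    ge_of_tendsto (hseq x (subset_closure hx))
      (Eventually.of_forall fun k => hmono x hx (Nat.zero_le k))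
  have huspos : ∀ x ∈ Ω, 0 < us x := fun x hx =>
    ((hadm _ (hLpos 0) (hLlt 0)).pos x hx).trans_le (husge x hx)
  have husI : ∀ x ∈ Ω, us x ∈ Ioo (0 : ℝ) 1 := fun x hx =>
    ⟨huspos x hx, (husle x hx).trans_lt hm0.2⟩
  have husb : ∀ x ∈ frontier Ω, us x = 0 := by
    intro x hx
    have h1 : Tendsto (fun k => u (L k) x) atTop (𝓝 (us x)) := hseq x (frontier_subset_closure hx)
    have h2 : (fun k => u (L k) x) = fun _ => 0 := by
      funext k; exact (hsol _ (hLpos k) (hLlt k)).boundary x hx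
    rw [h2] at h1
    exact tendsto_nhds_unique h1 tendsto_const_nhds
  -- interior regularity and the equation
  have hloc := fun (x0 : EuclideanSpace ℝ (Fin 2)) (hx0 : x0 ∈ Ω) =>
    hCONV 2 f (deriv f) Ω c B ls m0 L (fun k => u (L k)) us hNL hD hls hm0
      (fun k => hadm _ (hLpos k) (hLlt k)) hLpos (fun k => (hLlt k).le) hLlim
      (fun k => (hsol _ (hLpos k) (hLlt k)).equation)
      (fun k => hub _ (hL0 k) (hLlt k)) hmono (fun x hx => hseq x (subset_closure hx)) x0 hx0
  have hus2 : ContDiffOn ℝ 2 us Ω := by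
    intro x0 hx0
    obtain ⟨s, hs, hxs, -, hcs, -, -⟩ := hloc x0 hx0
    exact (hcs.contDiffAt (hs.mem_nhds hxs)).contDiffWithinAt
  have husEq : ∀ x ∈ Ω, -(Laplacian.laplacian us x) + fderiv ℝ us x (c x) = ls * f (us x) := by
    intro x hx
    obtain ⟨s, hs, hxs, -, -, hl, hl'⟩ := hloc x hx
    have h1 : Tendsto (fun k => -(Δ (u (L k)) x) + fderiv ℝ (u (L k)) x (c x)) atTop
        (𝓝 (-(Δ us x) + fderiv ℝ us x (c x))) := (hl x hxs).neg.add (hl' x hxs)
    have h2 : (fun k => -(Δ (u (L k)) x) + fderiv ℝ (u (L k)) x (c x)) =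
        fun k => L k * f (u (L k) x) := by
      funext k; exact (hsol _ (hLpos k) (hLlt k)).equation x hx
    rw [h2] at h1
    have h3 : Tendsto (fun k => f (u (L k) x)) atTop (𝓝 (f (us x))) :=
      ((hNL.hd _ (husI x hx)).continuousAt.tendsto).comp (hseq x (subset_closure hx))
    exact tendsto_nhds_unique h1 (hLlim.mul h3)
  -- comparison with a fixed minimal solution
  obtain ⟨M, hM0, hcomp⟩ : ∃ M : ℝ, 0 ≤ M ∧ ∀ x ∈ closure Ω, us x ≤ M * u (L 0) x := by
    set M : ℝ := (ls * f m0 + 1) / L 0 with hM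
    have hfm0 := hNL.one m0 hm0
    have hM0 : 0 ≤ M := by
      have := hLpos 0
      positivity
    refine ⟨M, hM0, ?_⟩
    intro x hx
    apply le_of_tendsto (hseq x hx)
    apply Eventually.of_forall
    intro k
    have hw := nonneg_of_super (c := c) hΩ hb (w := fun y => M * u (L 0) y - u (L k) y)
      ((contDiffOn_const.mul (hadm _ (hLpos 0) (hLlt 0)).c2).sub (hadm _ (hLpos k) (hLlt k)).c2)
      ((continuousOn_const.mul (hadm _ (hLpos 0) (hLlt 0)).cont).sub (hadm _ (hLpos k) (hLlt k)).cont)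
      (by
        intro y hy
        have c0 := (hadm _ (hLpos 0) (hLlt 0)).c2.contDiffAt (hΩ.mem_nhds hy)
        have ck := (hadm _ (hLpos k) (hLlt k)).c2.contDiffAt (hΩ.mem_nhds hy)
        have cM : ContDiffAt ℝ 2 (M • u (L 0)) y := contDiffAt_const.smul c0
        have e1 : Δ (fun y => M * u (L 0) y - u (L k) y) y = M * Δ (u (L 0)) y - Δ (u (L k)) y := by
          have e2 : (fun y => M * u (L 0) y - u (L k) y) = M • u (L 0) - u (L k) := rfl
          rw [e2, cM.laplacian_sub ck, laplacian_smul _ c0, smul_eq_mul]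
        have e3 := (hsol _ (hLpos 0) (hLlt 0)).equation y hy
        have e4 := (hsol _ (hLpos k) (hLlt k)).equation y hy
        have e5 := hNL.one _ (huI _ (hLpos 0) (hLlt 0) y hy)
        have e6 : f (u (L k) y) ≤ f m0 :=
          hNL.mono (huI _ (hLpos k) (hLlt k) y hy) hm0 (hub _ (hL0 k) (hLlt k) y hy)
        have e0 : fderiv ℝ (fun y => M * u (L 0) y - u (L k) y) y =
            M • fderiv ℝ (u (L 0)) y - fderiv ℝ (u (L k)) y := by
          have d0 : DifferentiableAt ℝ (u (L 0)) y := c0.differentiableAt (by norm_num)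
          have dk : DifferentiableAt ℝ (u (L k)) y := ck.differentiableAt (by norm_num)
          exact ((d0.hasFDerivAt.const_mul M).sub dk.hasFDerivAt).fderiv
        have e7 : -(Δ (fun y => M * u (L 0) y - u (L k) y) y) +
            fderiv ℝ (fun y => M * u (L 0) y - u (L k) y) y (c y) =
            M * (L 0 * f (u (L 0) y)) - L k * f (u (L k) y) := by
          rw [e1, e0, ← e3, ← e4]
          simp only [sub_apply, smul_apply, smul_eq_mul]
          ring
        rw [e7]
        have e8 : M * L 0 = ls * f m0 + 1 := by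
          rw [hM]; field_simp [(hLpos 0).ne']
        have e9 : L k * f (u (L k) y) ≤ ls * f m0 :=
          mul_le_mul (hLlt k).le e6 (by linarith [hNL.one _ (huI _ (hLpos k) (hLlt k) y hy)]) hls.le
        have e10 : M * (L 0 * f (u (L 0) y)) = (ls * f m0 + 1) * f (u (L 0) y) := by
          rw [← mul_assoc, e8]
        have e11 : 0 ≤ ls * f m0 + 1 := by positivity
        have e12 : (ls * f m0 + 1) * 1 ≤ (ls * f m0 + 1) * f (u (L 0) y) :=
          mul_le_mul_of_nonneg_left e5 e11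
        linarith)
      (by
        intro y hy
        rw [(hsol _ (hLpos 0) (hLlt 0)).boundary y hy, (hsol _ (hLpos k) (hLlt k)).boundary y hy]
        simp)
      x hx
    linarith
  have husnn : ∀ x ∈ closure Ω, 0 ≤ us x := by
    intro x hx
    by_cases hxΩ : x ∈ Ω
    · exact (huspos x hxΩ).le
    · rw [husb x (by rw [frontier, hΩ.interior_eq]; exact ⟨hx, hxΩ⟩)]
  have husc : ContinuousOn us (closure Ω) := by
    intro x hx
    by_cases hxΩ : x ∈ Ω
    · exact ((hus2.contDiffAt (hΩ.mem_nhds hxΩ)).continuousAt).continuousWithinAt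
    · have hxf : x ∈ frontier Ω := by rw [frontier, hΩ.interior_eq]; exact ⟨hx, hxΩ⟩
      have h0 : u (L 0) x = 0 := (hsol _ (hLpos 0) (hLlt 0)).boundary x hxf
      have h1 : ContinuousWithinAt (fun y => M * u (L 0) y) (closure Ω) x :=
        continuousWithinAt_const.mul ((hadm _ (hLpos 0) (hLlt 0)).cont x hx)
      have h2 : Tendsto (fun y => M * u (L 0) y) (𝓝[closure Ω] x) (𝓝 0) := by
        have := h1.tendsto
        rwa [h0, mul_zero] at this
      rw [ContinuousWithinAt, husb x hxf]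
      apply tendsto_of_tendsto_of_tendsto_of_le_of_le' tendsto_const_nhds h2
      · filter_upwards [self_mem_nhdsWithin] with y hy using husnn y hy
      · filter_upwards [self_mem_nhdsWithin] with y hy using hcomp y hy
  refine ⟨⟨hus2, husc, fun x hx => (huspos x hx).le, fun x hx => (husI x hx).2, husEq, husb⟩,
    m0, hm0.2, ?_⟩
  intro x hx
  by_cases hxΩ : x ∈ Ω
  · exact husle x hxΩ
  · rw [husb x (by rw [frontier, hΩ.interior_eq]; exact ⟨hx, hxΩ⟩)]
    exact hm0.1.le

/-- **Singular problems with advection in the plane.** For every bounded open plane set `Ω` (in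
particular every bounded smooth domain), every advection `c` and every nonlinearity `f` of type
(S), the extremal solution is a classical solution at the extremal parameter, and it stays away
from the singular value `1`.  The case `c = 0` is Q1. -/
theorem result (Ω : Set (EuclideanSpace ℝ (Fin 2))) (hΩ : IsOpen Ω) (hb : Bornology.IsBounded Ω)
    (c : EuclideanSpace ℝ (Fin 2) → EuclideanSpace ℝ (Fin 2)) (hc : IsAdvection Ω c)
    (f : ℝ → ℝ) (hf : IsTypeS f) (ls : ℝ) (u : ℝ → EuclideanSpace ℝ (Fin 2) → ℝ)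
    (us : EuclideanSpace ℝ (Fin 2) → ℝ) (h : IsExtremal Ω c f ls u us) :
    IsClassicalSolution Ω c f ls us ∧ ∃ m < 1, ∀ x ∈ closure Ω, us x ≤ m := by
  have hDIVG : S_DIVG := Pool.Agent.Y534.AR.t_DIVG
  have hDRE : S_DRE := Pool.Agent.Y182.AS.t_DRE hDIVG
  have hSUP : S_SUP := Pool.Agent.Y970.AS.t_SUP Pool.Agent.Y748.AS.t_TEST
    (Pool.Agent.Y314.AS.t_NED hDRE) (Pool.Agent.Y348.AS.t_LEV hDRE)
  have hGRAD : S_GRAD := Pool.Agent.Y401.AS.t_GRAD
  have hCONV : S_CONV := Pool.Agent.Y465.AS.t_CONV hGRAD (Pool.Agent.Y429.AS.t_HESS hGRAD)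
  exact main_of Pool.Agent.Y534.AR.t_STAB hSUP hCONV Ω hΩ hb c hc f hf ls u us h

end Pool.Agent.Results.MP_32f00d_an.PlanarWithAdvection
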